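import Pool.Agent.Q215.TD.Stm

/-!
# Project TD (helper215): the sets `UU`
-/

set_option autoImplicit false

namespace Pool.Agent.Q153.TD

open Pool.Agent.Q215.TD Filter Topology

variable {n : ℕ}

theorem qn_cont : Continuous (qn (n := n)) := by
  unfold qn
  fun_prop

theorem qn_nonneg (w : W n) : 0 ≤ qn w := by
  unfold qn
  positivity

theorem qn_smul (s : ℝ) (w : W n) : qn (s • w) = s ^ 2 * qn w := by
  unfold qn
  rw [Prod.smul_fst, Prod.smul_snd, norm_smul, norm_smul, mul_pow, mul_pow, Real.norm_eq_abs, sq_abs]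
  ring

theorem rad_pos (k : ℕ) : 0 < rad k := by
  unfold rad
  positivity

theorem pre0 : IsPreconnected {v : W n | v.1 ≠ 0} := by
  have e : {v : W n | v.1 ≠ 0} = ({0}ᶜ : Set ℂ) ×ˢ (Set.univ : Set (EuclideanSpace ℝ (Fin n))) := by
    ext v
    simp
  rw [e]
  refine IsPreconnected.prod ?_ isPreconnected_univ
  exact (isConnected_compl_singleton_of_one_lt_rank (by rw [Complex.rank_real_complex]; norm_num) 0).isPreconnected

theorem image_eq (c : W n) {ρ : ℝ} (hρ : 0 < ρ) :
    (fun v : W n => c + (ρ / √(1 + qn v)) • v) '' {v : W n | v.1 ≠ 0} =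
      {w | qn (w - c) < ρ ^ 2 ∧ w.1 - c.1 ≠ 0} := by
  ext w
  constructor
  · rintro ⟨v, hv, rfl⟩
    have h0 := qn_nonneg v
    have h1 : 0 < 1 + qn v := by linarith
    have hs : 0 < √(1 + qn v) := Real.sqrt_pos.2 h1
    refine ⟨?_, ?_⟩
    · rw [add_sub_cancel_left, qn_smul, div_pow, Real.sq_sqrt h1.le, div_mul_eq_mul_div, div_lt_iff₀ h1]
      nlinarith [mul_pos hρ hρ]
    · rw [Prod.fst_add, add_sub_cancel_left, Prod.smul_fst]
      exact smul_ne_zero (div_pos hρ hs).ne' hv
  · rintro ⟨h1, h2⟩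
    set u := w - c with hu
    have h3 : 0 < ρ ^ 2 - qn u := by linarith
    have hs : 0 < √(ρ ^ 2 - qn u) := Real.sqrt_pos.2 h3
    refine ⟨(1 / √(ρ ^ 2 - qn u)) • u, ?_, ?_⟩
    · show ((1 / √(ρ ^ 2 - qn u)) • u).1 ≠ 0
      rw [Prod.smul_fst]
      exact smul_ne_zero (one_div_pos.2 hs).ne' h2
    · show c + (ρ / √(1 + qn ((1 / √(ρ ^ 2 - qn u)) • u))) • ((1 / √(ρ ^ 2 - qn u)) • u) = w
      have h4 : 1 + qn ((1 / √(ρ ^ 2 - qn u)) • u) = (ρ / √(ρ ^ 2 - qn u)) ^ 2 := by
        rw [qn_smul, div_pow, div_pow, Real.sq_sqrt h3.le, one_pow]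
        field_simp
        ring
      rw [h4, Real.sqrt_sq (div_pos hρ hs).le, smul_smul]
      have h5 : ρ / (ρ / √(ρ ^ 2 - qn u)) * (1 / √(ρ ^ 2 - qn u)) = 1 := by
        field_simp
      rw [h5, one_smul, hu]
      abel

theorem t_UU : S_UU := by
  intro n x k
  have hρ := rad_pos k
  refine ⟨?_, ?_, ?_⟩
  · have h1 : IsOpen {w : W n | qn (w - cen x k) < rad k ^ 2} :=
      isOpen_lt (qn_cont.comp (continuous_id.sub continuous_const)) continuous_const
    have h2 : IsOpen {w : W n | w.1 - (cen (n := n) x k).1 ≠ 0} :=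
      isOpen_ne_fun (continuous_fst.sub continuous_const) continuous_const
    exact h1.inter h2
  · refine ⟨cen x k + (((rad k / 2 : ℝ) : ℂ), 0), ?_, ?_⟩
    · rw [add_sub_cancel_left]
      unfold qn
      rw [norm_zero, Complex.norm_real, Real.norm_eq_abs, sq_abs]
      nlinarith [mul_pos hρ hρ]
    · rw [Prod.fst_add, add_sub_cancel_left, Ne, Complex.ofReal_eq_zero]
      exact (half_pos hρ).ne'
  · have h0 : Continuous fun v : W n => rad k / √(1 + qn v) := by
      refine continuous_const.div (Real.continuous_sqrt.comp (continuous_const.add qn_cont)) fun v => ?_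
      exact (Real.sqrt_pos.2 (by linarith [qn_nonneg v])).ne'
    have h1 : Continuous fun v : W n => cen x k + (rad k / √(1 + qn v)) • v :=
      continuous_const.add (h0.smul continuous_id)
    have h := (pre0 (n := n)).image (fun v : W n => cen x k + (rad k / √(1 + qn v)) • v) h1.continuousOn
    rw [image_eq (cen x k) hρ] at h
    exact h

end Pool.Agent.Q153.TD
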